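import Pool.Agent.W172.MK.Stm

/-! MP_65c995_pr, project MK, part BND: summability of the terms. -/

set_option autoImplicit false

open MeasureTheory ProbabilityTheory Filter Topology

namespace Pool.Agent.W91.MK

open Pool.Agent.W172.MK

lemma tele (f u : ℕ → ℝ) (hf : ∀ t, 0 ≤ f t) (hu : ∀ t, 0 ≤ u t)
    (h : ∀ t, f t ≤ u t - u (t + 1)) : Summable f ∧ ∑' t, f t ≤ u 0 := by
  have key : ∀ T, ∑ t ∈ Finset.range T, f t ≤ u 0 := by
    intro T
    have h1 : ∑ t ∈ Finset.range T, f t ≤ ∑ t ∈ Finset.range T, (u t - u (t + 1)) :=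
      Finset.sum_le_sum fun t _ => h t
    rw [Finset.sum_range_sub'] at h1
    linarith [hu T]
  exact ⟨summable_of_sum_range_le hf key, Real.tsum_le_of_sum_range_le hf key⟩

lemma L1_nonneg {n : ℕ} (D : V n → ℝ) : 0 ≤ L1 D := Finset.sum_nonneg fun _ _ => abs_nonneg _

theorem bnd (h1 : P_POT) (h2 : P_L0) : P_BND := by
  intro n M eps hg x z
  obtain ⟨l1, -, l3⟩ := h2 n hg.big
  have hD0 : DD eps x.2 z.2 0 = D0 := rfl
  by_cases hs : x.1.1 = z.1.1
  · have ht : ∀ t, term eps x z t = cE eps x.2 z.2 t (x.1.2 + z.1.2) := fun t => by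
      unfold term; rw [if_pos hs]
    obtain ⟨s1, s2⟩ := tele (fun t => |term eps x z t|) (fun t => 7 / 5 * L1 (DD eps x.2 z.2 t))
      (fun t => abs_nonneg _) (fun t => mul_nonneg (by norm_num) (L1_nonneg _)) (fun t => by
        have := (h1 n M eps hg x.2 z.2 t (x.1.2 + z.1.2)).1
        simp only [ht]
        linarith)
    simp only [hD0, l1] at s2
    refine ⟨s1, by linarith, ?_⟩
    intro hne
    have ha : x.1.2 + z.1.2 ≠ 0 := by
      intro h0
      apply hne
      apply Prod.ext hs
      funext i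
      have := congrFun h0 i
      exact CharTwo.add_eq_zero.mp this
    obtain ⟨-, s3⟩ := tele (fun t => |term eps x z t|)
      (fun t => 1 / 5 * L1 (DD eps x.2 z.2 t) + |hat (DD eps x.2 z.2 t) (x.1.2 + z.1.2)|)
      (fun t => abs_nonneg _)
      (fun t => add_nonneg (mul_nonneg (by norm_num) (L1_nonneg _)) (abs_nonneg _)) (fun t => by
        have := (h1 n M eps hg x.2 z.2 t (x.1.2 + z.1.2)).2.2 ha
        simp only [ht]
        linarith)
    simp only [hD0, l1] at s3
    have := l3 _ ha
    linarith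
  · have ht : ∀ t, term eps x z t = cO eps x.2 z.2 t (x.1.2 + z.1.2) := fun t => by
      unfold term; rw [if_neg hs]
    obtain ⟨s1, s2⟩ := tele (fun t => |term eps x z t|) (fun t => 3 / 10 * L1 (DD eps x.2 z.2 t))
      (fun t => abs_nonneg _) (fun t => mul_nonneg (by norm_num) (L1_nonneg _)) (fun t => by
        have := (h1 n M eps hg x.2 z.2 t (x.1.2 + z.1.2)).2.1
        simp only [ht]
        linarith)
    simp only [hD0, l1] at s2
    exact ⟨s1, by linarith, fun _ => by linarith⟩

end Pool.Agent.W91.MK
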